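import Mathlib
import Pool.Agent.Helper78.Main1
import Pool.Agent.Helper78.Complete
import Pool.Agent.Helper78.Hamel
import Pool.Agent.Results.MP_1b52a3_lc.NoBorelReduction

/-!
# Conjugacy of ergodic automorphisms does not Borel reduce to conjugacy in a full group

Outline. Let `B` be an uncountable set of reals such that `B ∪ {1}` is independent over the rationals. For
an injective sequence `s` in `B` the rotation of the infinite torus by `s` is ergodic, and two such
rotations are conjugate exactly when the sequences enumerate the same subset of `B`. So a Borel reduction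
would give a Borel map `F` from the sequences of reals to the full group such that, for sequences with
infinitely many values in `B`, the values of `F` are conjugate exactly when the sequences have the same
set of values. The full group is a Polish group with a two-sided invariant metric, and for such a group
there is no such map `F` (`Helper78.Main1`): consider generic enumerations of countable subsets `A` of `B`
which are closed under the winning strategies in countably many unfolded Banach-Mazur games. Because the metric is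
invariant and complete, the conjugacy class of `F x` for a generic enumeration `x` of `A` is given by
countably many data, which do not change if `A` is replaced by a larger closed set.
-/

open MeasureTheory Filter Topology Set

namespace Pool.Agent.Results.MP_1b52a3_lc.NoErgodicReduction

open Pool.Agent.Helper212.ConjBorel Pool.Agent.Helper212.Sq
open Pool.Agent.Results.MP_1b52a3_lc.NoBorelReduction (PreAut Aut autSubgroup nullSubgroup
  mk_eq_mk_iff secondCountable_fullGroup)
open Pool.Agent.Helper78.Rot (Y nu pt rot mp_rot Good)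

section Defs

variable {X : Type*} [MeasurableSpace X]

/-- An element of `Aut(X, μ)` is ergodic if it has a representative which is ergodic. -/
def IsErgodic {μ : Measure X} (S : Aut μ) : Prop :=
  ∃ U : PreAut μ, (QuotientGroup.mk U : Aut μ) = S ∧ Ergodic (U.1 : X → X) μ

/-- An element of the full group `[T₀]` is ergodic if it has a representative which is ergodic. -/
def IsErgodicFull [StandardBorelSpace X] {μ : Measure X} [IsProbabilityMeasure μ] {T₀ : X ≃ᵐ X}
    {h : Ergodic T₀ μ} (S : FullGroup h) : Prop :=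
  ∃ U : PreFull h, (SeparationQuotient.mk U : FullGroup h) = S ∧ Ergodic (U.1 : X → X) μ

theorem ergodic_congr {μ : Measure X} [IsFiniteMeasure μ] {f g : X → X} (hf : Ergodic f μ)
    (hg : MeasurePreserving g μ μ) (hfg : ∀ᵐ x ∂μ, f x = g x) : Ergodic g μ := by
  refine { hg with aeconst_set := ?_ }
  intro s hs hinv
  have h1 : f ⁻¹' s =ᵐ[μ] s := by
    filter_upwards [hfg] with x hx
    have h2 : (g ⁻¹' s) x = s x := by rw [hinv]
    rw [← h2]
    show (f x ∈ s) = (g x ∈ s)
    rw [hx]
  have h3 := hf.quasiErgodic.ae_empty_or_univ₀ hs.nullMeasurableSet h1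
  rw [eventuallyConst_set]
  rcases h3 with h3 | h3
  · right
    filter_upwards [h3] with x hx
    have : (x ∈ s) = (x ∈ (∅ : Set X)) := hx
    rw [this]
    exact notMem_empty x
  · left
    filter_upwards [h3] with x hx
    have : (x ∈ s) = (x ∈ (univ : Set X)) := hx
    rw [this]
    exact mem_univ x

/-- Sanity check: whether an element of `Aut(X, μ)` is ergodic can be tested on any representative. -/
theorem isErgodic_mk_iff {μ : Measure X} [IsFiniteMeasure μ] (U : PreAut μ) :
    IsErgodic (QuotientGroup.mk U : Aut μ) ↔ Ergodic (U.1 : X → X) μ := by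
  constructor
  · rintro ⟨V, hV, hV'⟩
    exact ergodic_congr hV' U.2.1 ((mk_eq_mk_iff μ V U).1 hV)
  · intro h
    exact ⟨U, rfl, h⟩

/-- Sanity check: whether an element of the full group is ergodic can be tested on any
representative. -/
theorem isErgodicFull_mk_iff [StandardBorelSpace X] {μ : Measure X} [IsProbabilityMeasure μ]
    {T₀ : X ≃ᵐ X} {h : Ergodic T₀ μ} (U : PreFull h) :
    IsErgodicFull (SeparationQuotient.mk U : FullGroup h) ↔ Ergodic (U.1 : X → X) μ := by
  constructor
  · rintro ⟨V, hV, hV'⟩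
    exact ergodic_congr hV' U.measurePreserving ((FullGroup.mk_eq_mk_iff V U).1 hV)
  · intro h
    exact ⟨U, rfl, h⟩

end Defs

section Transport

variable {X : Type*} [MeasurableSpace X] {μ : Measure X}

/-- Transport of an automorphism of the torus to `X`. -/
noncomputable def tr (e : Y ≃ᵐ X) (he : MeasurePreserving e nu μ) (F : Y ≃ᵐ Y)
    (hF : MeasurePreserving F nu nu) : PreAut μ :=
  ⟨((e.symm.trans F).trans e).toEquiv,
    ⟨he.comp (hF.comp (MeasurePreserving.symm e he)),
      he.comp ((MeasurePreserving.symm F hF).comp (MeasurePreserving.symm e he))⟩⟩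

theorem tr_apply (e : Y ≃ᵐ X) (he : MeasurePreserving e nu μ) (F : Y ≃ᵐ Y)
    (hF : MeasurePreserving F nu nu) (x : X) : (tr e he F hF).1 x = e (F (e.symm x)) := rfl

/-- The automorphism of `X` given by a rotation. -/
noncomputable def RR (e : Y ≃ᵐ X) (he : MeasurePreserving e nu μ) (s : ℕ → ℝ) : PreAut μ :=
  tr e he (rot s) (mp_rot s)

theorem RR_apply (e : Y ≃ᵐ X) (he : MeasurePreserving e nu μ) (s : ℕ → ℝ) (x : X) :
    (RR e he s).1 x = e (pt s + e.symm x) := rfl

theorem continuous_RR (e : Y ≃ᵐ X) (he : MeasurePreserving e nu μ) : Continuous (RR e he) := by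
  rw [continuous_induced_rng]
  refine continuous_pi fun p => ?_
  obtain ⟨⟨A, hA⟩, ⟨B, hB⟩⟩ := p
  have h1 := Pool.Agent.Helper78.Rot.continuous_meas_gen nu (fun s : ℕ → ℝ => fun y => pt s + y)
    (fun y => Pool.Agent.Helper78.Rot.continuous_pt.add continuous_const) (fun s => mp_rot s)
    (e ⁻¹' A) (e ⁻¹' B) (e.measurable hA)
  have h2 : ∀ s, μ.real ((RR e he s).1 ⁻¹' A ∩ B)
      = nu.real ((fun y => pt s + y) ⁻¹' (e ⁻¹' A) ∩ e ⁻¹' B) := by
    intro s
    have h3 : e ⁻¹' ((RR e he s).1 ⁻¹' A ∩ B) = (fun y => pt s + y) ⁻¹' (e ⁻¹' A) ∩ e ⁻¹' B := by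
      ext x
      show (e (pt s + (e.symm (e x))) ∈ A ∧ e x ∈ B) ↔ (e (pt s + x) ∈ A ∧ e x ∈ B)
      rw [e.symm_apply_apply]
    have h4 : MeasurableSet ((RR e he s).1 ⁻¹' A ∩ B) := ((RR e he s).2.1.measurable hA).inter hB
    rw [← h3, measureReal_def, measureReal_def, he.measure_preimage h4.nullMeasurableSet]
  exact h1.congr fun s => (h2 s).symm

theorem ergodic_RR (e : Y ≃ᵐ X) (he : MeasurePreserving e nu μ) {s : ℕ → ℝ} (hs : Good s) :
    Ergodic ((RR e he s).1 : X → X) μ := by
  refine { (RR e he s).2.1 with aeconst_set := ?_ }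
  intro A hA hinv
  have h1 : (rot s) ⁻¹' (e ⁻¹' A) = e ⁻¹' A := by
    ext y
    have h2 : e y ∈ (RR e he s).1 ⁻¹' A ↔ e y ∈ A := by rw [hinv]
    have h3 : (RR e he s).1 (e y) = e (pt s + y) := by rw [RR_apply, e.symm_apply_apply]
    rw [mem_preimage, h3] at h2
    exact h2
  have h4 := (Pool.Agent.Helper78.Rot.ergodic_rot hs).aeconst_set (e.measurable hA) h1
  rw [eventuallyConst_set] at h4 ⊢
  have h5 : ∀ S : Set X, MeasurableSet S → (∀ᵐ y ∂nu, y ∈ e ⁻¹' S) → ∀ᵐ x ∂μ, x ∈ S := by
    intro S hS h
    have h6 := (MeasurePreserving.symm e he).quasiMeasurePreserving.ae h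
    filter_upwards [h6] with x hx
    rwa [mem_preimage, e.apply_symm_apply] at hx
  rcases h4 with h4 | h4
  · exact Or.inl (h5 A hA h4)
  · exact Or.inr (h5 Aᶜ hA.compl h4)

theorem RR_conj (e : Y ≃ᵐ X) (he : MeasurePreserving e nu μ) (s : ℕ → ℝ) (σ : Equiv.Perm ℕ) :
    ∃ U : Aut μ, (QuotientGroup.mk (RR e he (s ∘ σ)) : Aut μ) =
      U * QuotientGroup.mk (RR e he s) * U⁻¹ := by
  refine ⟨QuotientGroup.mk (tr e he (Pool.Agent.Helper78.Rot.perm σ)
    (Pool.Agent.Helper78.Rot.mp_perm σ)), ?_⟩
  rw [eq_mul_inv_iff_mul_eq]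
  refine congrArg QuotientGroup.mk (Subtype.ext (Equiv.ext fun x => ?_))
  show e (rot (s ∘ σ) (e.symm (e (Pool.Agent.Helper78.Rot.perm σ (e.symm x)))))
    = e (Pool.Agent.Helper78.Rot.perm σ (e.symm (e (rot s (e.symm x)))))
  rw [e.symm_apply_apply, e.symm_apply_apply, Pool.Agent.Helper78.Rot.perm_rot]

theorem eigen_of_conj (e : Y ≃ᵐ X) (he : MeasurePreserving e nu μ) (s s' : ℕ → ℝ)
    (h : ∃ U : Aut μ, (QuotientGroup.mk (RR e he s') : Aut μ) =
      U * QuotientGroup.mk (RR e he s) * U⁻¹) (j : ℕ) :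
    ∃ m : ℕ →₀ ℤ, Pool.Agent.Helper78.Rot.pair m (pt s) = (s' j : UnitAddCircle) := by
  obtain ⟨U, hU⟩ := h
  obtain ⟨V, rfl⟩ := QuotientGroup.mk_surjective U
  rw [eq_mul_inv_iff_mul_eq] at hU
  have h1 : (QuotientGroup.mk (RR e he s' * V) : Aut μ) = QuotientGroup.mk (V * RR e he s) := hU
  rw [mk_eq_mk_iff] at h1
  have h2 : ∀ᵐ x ∂μ, e (pt s' + e.symm (V.1 x)) = V.1 (e (pt s + e.symm x)) := h1
  have h3 := he.quasiMeasurePreserving.ae h2
  refine Pool.Agent.Helper78.Rot.exists_of_intertwine s s' (fun x => e.symm (V.1 (e x)))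
    ((MeasurePreserving.symm e he).comp (V.2.1.comp he)) ?_ j
  filter_upwards [h3] with x hx
  rw [e.symm_apply_apply] at hx
  show e.symm (V.1 (e (pt s + x))) = pt s' + e.symm (V.1 (e x))
  rw [← hx, e.symm_apply_apply]

end Transport

section Main

variable {X : Type*} [MeasurableSpace X] [StandardBorelSpace X]
variable {μ : Measure X} [IsProbabilityMeasure μ] {T₀ : X ≃ᵐ X} {h : Ergodic T₀ μ}

theorem exists_model (μ : Measure X) [IsProbabilityMeasure μ] [NullSingletonClass μ] :
    ∃ e : Y ≃ᵐ X, MeasurePreserving e nu μ := by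
  obtain ⟨e1, h1⟩ := exists_mp_equiv nu
  obtain ⟨e2, h2⟩ := exists_mp_equiv μ
  exact ⟨e1.trans e2.symm, (MeasurePreserving.symm e2 h2).comp h1⟩

theorem biInv_fullGroup : Pool.Agent.Helper78.Game.BiInv (FullGroup h) where
  left a b c := by
    obtain ⟨a, rfl⟩ := SeparationQuotient.surjective_mk a
    obtain ⟨b, rfl⟩ := SeparationQuotient.surjective_mk b
    obtain ⟨c, rfl⟩ := SeparationQuotient.surjective_mk c
    rw [(FullGroup.mk_mul_mk a b).1, (FullGroup.mk_mul_mk a c).1, SeparationQuotient.dist_mk,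
      SeparationQuotient.dist_mk]
    exact PreFull.dist_mul_left' a b c
  right a b c := by
    obtain ⟨a, rfl⟩ := SeparationQuotient.surjective_mk a
    obtain ⟨b, rfl⟩ := SeparationQuotient.surjective_mk b
    obtain ⟨c, rfl⟩ := SeparationQuotient.surjective_mk c
    rw [(FullGroup.mk_mul_mk b a).1, (FullGroup.mk_mul_mk c a).1, SeparationQuotient.dist_mk,
      SeparationQuotient.dist_mk]
    exact PreFull.dist_mul_right' a b c

theorem main [NullSingletonClass μ] : ¬ ∃ f : {S : Aut μ // IsErgodic S} → FullGroup h,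
    Measurable[borel {S : Aut μ // IsErgodic S}, borel (FullGroup h)] f ∧
      ∀ S S' : {S : Aut μ // IsErgodic S},
        (∃ U : Aut μ, S'.1 = U * S.1 * U⁻¹) ↔ ∃ V : FullGroup h, f S' = V * f S * V⁻¹ := by
  classical
  rintro ⟨f, hf, hred⟩
  obtain ⟨e, he⟩ := exists_model μ
  obtain ⟨B, hBc, hB⟩ := Pool.Agent.Helper78.Rot.exists_hamel
  have hBu : Uncountable B := by
    rw [← not_countable_iff]
    exact fun hc => hBc (countable_coe_iff.1 hc)
  let _ : MeasurableSpace {S : Aut μ // IsErgodic S} := borel _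
  have : BorelSpace {S : Aut μ // IsErgodic S} := ⟨rfl⟩
  let _ : MeasurableSpace (FullGroup h) := borel _
  have : BorelSpace (FullGroup h) := ⟨rfl⟩
  have : SecondCountableTopology (FullGroup h) := secondCountable_fullGroup
  have : CompleteSpace (FullGroup h) := Pool.Agent.Helper78.complete_fullGroup
  -- the rotations by independent sequences
  let ρ : {s : ℕ → ℝ // Good s} → {S : Aut μ // IsErgodic S} := fun s =>
    ⟨QuotientGroup.mk (RR e he s.1), RR e he s.1, rfl, ergodic_RR e he s.2⟩
  have hρ : Continuous ρ := by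
    refine Continuous.subtype_mk ?_ _
    exact continuous_quotient_mk'.comp ((continuous_RR e he).comp continuous_subtype_val)
  let g : (ℕ → ℝ) → FullGroup h := fun s => if hs : s ∈ {s | Good s} then f (ρ ⟨s, hs⟩) else 1
  have hg : Measurable g := by
    have h1 : Measurable fun s : {s : ℕ → ℝ // s ∈ {s | Good s}} => f (ρ s) := hf.comp hρ.measurable
    exact Measurable.dite h1 (g := fun _ => (1 : FullGroup h)) measurable_const
      Pool.Agent.Helper78.Rot.measurableSet_Good
  have hgood : ∀ x : ℕ → B, Function.Injective x → Good (fun n => (x n : ℝ)) := fun x hx =>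
    Pool.Agent.Helper78.Rot.good_of_injective hB hx
  have hgx : ∀ (x : ℕ → B) (hx : Function.Injective x),
      g (fun n => (x n : ℝ)) = f (ρ ⟨_, hgood x hx⟩) := fun x hx => dif_pos (hgood x hx)
  -- injective sequences in `B` with the same range
  have key : ∀ (x y : ℕ → B), Function.Injective x → Function.Injective y →
      ((∃ k, k * g (fun n => (x n : ℝ)) * k⁻¹ = g (fun n => (y n : ℝ))) ↔ range x = range y) := by
    intro x y hx hy
    rw [hgx x hx, hgx y hy]
    have h1 := hred (ρ ⟨_, hgood x hx⟩) (ρ ⟨_, hgood y hy⟩)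
    have h2 : (∃ k, k * f (ρ ⟨_, hgood x hx⟩) * k⁻¹ = f (ρ ⟨_, hgood y hy⟩)) ↔
        ∃ V : FullGroup h, f (ρ ⟨_, hgood y hy⟩) = V * f (ρ ⟨_, hgood x hx⟩) * V⁻¹ :=
      ⟨fun ⟨k, hk⟩ => ⟨k, hk.symm⟩, fun ⟨k, hk⟩ => ⟨k, hk.symm⟩⟩
    rw [h2, ← h1]
    constructor
    · rintro ⟨U, hU⟩
      have e1 : ∀ j, y j ∈ range x := by
        intro j
        obtain ⟨m, hm⟩ := eigen_of_conj e he (fun n => (x n : ℝ)) (fun n => (y n : ℝ)) ⟨U, hU⟩ j
        exact Pool.Agent.Helper78.Rot.mem_range_of_eigen hB hm
      have e2 : ∀ j, x j ∈ range y := by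
        intro j
        obtain ⟨m, hm⟩ := eigen_of_conj e he (fun n => (y n : ℝ)) (fun n => (x n : ℝ))
          ⟨U⁻¹, by
            have hU' : (QuotientGroup.mk (RR e he fun n => (y n : ℝ)) : Aut μ) =
              U * QuotientGroup.mk (RR e he fun n => (x n : ℝ)) * U⁻¹ := hU
            rw [hU']
            group⟩ j
        exact Pool.Agent.Helper78.Rot.mem_range_of_eigen hB hm
      apply Subset.antisymm
      · rintro _ ⟨j, rfl⟩; exact e2 j
      · rintro _ ⟨j, rfl⟩; exact e1 j
    · intro hr
      obtain ⟨σ, hσ⟩ := Pool.Agent.Helper78.Rot.exists_perm hx hy hr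
      obtain ⟨U, hU⟩ := RR_conj e he (fun n => (x n : ℝ)) σ
      refine ⟨U, ?_⟩
      have h3 : (fun n => (y n : ℝ)) = (fun n => (x n : ℝ)) ∘ σ := by
        funext n
        show ((y n : B) : ℝ) = ((x (σ n) : B) : ℝ)
        rw [← hσ]; rfl
      show (QuotientGroup.mk (RR e he fun n => (y n : ℝ)) : Aut μ) =
              U * QuotientGroup.mk (RR e he fun n => (x n : ℝ)) * U⁻¹
      rw [h3]
      exact hU
  refine Pool.Agent.Helper78.Game.no_reduction (H := FullGroup h) (B := B) (P := ℝ) biInv_fullGroup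
    Subtype.val (fun x => g (Pool.Agent.Helper78.Rot.dd x))
    (hg.comp Pool.Agent.Helper78.Rot.measurable_dd) fun x y hx hy => ?_
  obtain ⟨x', hx1, hx2, hx3⟩ := Pool.Agent.Helper78.Rot.exists_dd hx
  obtain ⟨y', hy1, hy2, hy3⟩ := Pool.Agent.Helper78.Rot.exists_dd hy
  have h5 := key x' y' hx1 hy1
  rw [hx2, hy2, ← hx3, ← hy3] at h5
  exact h5

end Main

/-- **Main theorem.** Let `T₀` be an ergodic automorphism of a standard atomless probability space
`(X, μ)`, and let `E` be any set of elements of its full group `[T₀]`, for example all of `[T₀]`, or the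
set of the ergodic elements of `[T₀]`. There is no Borel map `f` from the set of ergodic elements of
`Aut(X, μ)` to `E` such that `S`, `S'` are conjugate in `Aut(X, μ)` if and only if `f S`, `f S'` are
conjugate in `[T₀]`. -/
theorem result {X : Type*} [MeasurableSpace X] [StandardBorelSpace X] {μ : Measure X}
    [IsProbabilityMeasure μ] [NullSingletonClass μ] {T₀ : X ≃ᵐ X} (h : Ergodic T₀ μ)
    (E : Set (FullGroup h)) :
    ¬ ∃ f : {S : Aut μ // IsErgodic S} → E,
      Measurable[borel {S : Aut μ // IsErgodic S}, borel E] f ∧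
        ∀ S S' : {S : Aut μ // IsErgodic S},
          (∃ U : Aut μ, S'.1 = U * S.1 * U⁻¹) ↔
            ∃ V : FullGroup h, (f S').1 = V * (f S).1 * V⁻¹ := by
  rintro ⟨f, hf, hred⟩
  refine main (h := h) ⟨fun S => (f S).1, ?_, hred⟩
  have h1 : Measurable[borel E, borel (FullGroup h)] (Subtype.val : E → FullGroup h) := by
    let _ : MeasurableSpace (FullGroup h) := borel _
    have : BorelSpace (FullGroup h) := ⟨rfl⟩
    let _ : MeasurableSpace E := borel _
    have : BorelSpace E := ⟨rfl⟩
    exact (continuous_subtype_val (p := fun S : FullGroup h => S ∈ E)).measurable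
  exact h1.comp hf

/-- The case of the ergodic elements of `[T₀]`. -/
theorem result_ergodic {X : Type*} [MeasurableSpace X] [StandardBorelSpace X] {μ : Measure X}
    [IsProbabilityMeasure μ] [NullSingletonClass μ] {T₀ : X ≃ᵐ X} (h : Ergodic T₀ μ) :
    ¬ ∃ f : {S : Aut μ // IsErgodic S} → {V : FullGroup h // IsErgodicFull V},
      Measurable[borel {S : Aut μ // IsErgodic S}, borel {V : FullGroup h // IsErgodicFull V}] f ∧
        ∀ S S' : {S : Aut μ // IsErgodic S},
          (∃ U : Aut μ, S'.1 = U * S.1 * U⁻¹) ↔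
            ∃ V : FullGroup h, (f S').1 = V * (f S).1 * V⁻¹ :=
  result h {V | IsErgodicFull V}

end Pool.Agent.Results.MP_1b52a3_lc.NoErgodicReduction
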